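import Pool.Agent.P.MP_267653_al.DF

set_option autoImplicit false

namespace Pool.Agent.Results.MP_267653_al.ExpDehn

/-- `G` has a strict total order invariant under left multiplication. -/
def LeftOrderable (G : Type) [Group G] : Prop :=
  ∃ lt : G → G → Prop, (∀ a, ¬ lt a a) ∧ (∀ a b c, lt a b → lt b c → lt a c) ∧
    (∀ a b, lt a b ∨ a = b ∨ lt b a) ∧ (∀ a b c, lt b c → lt (a * b) (a * c))

/-- Type `FP_m` for `1 ≤ m`: free modules `ℤG ^ r i` of finite rank and matrices `d i` with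
`r 0 = 1`, image of `d 0` the augmentation ideal, and exactness in degrees `1, ..., m - 1`. -/
def TypeFP (G : Type) [Group G] (m : ℕ) : Prop :=
  ∃ (r : ℕ → ℕ) (d : ∀ i : ℕ, Matrix (Fin (r (i + 1))) (Fin (r i)) (MonoidAlgebra ℤ G)),
    r 0 = 1 ∧
    (∀ v : Fin (r 0) → MonoidAlgebra ℤ G,
      ((∀ j, v j ∈ Submodule.span (MonoidAlgebra ℤ G)
          (Set.range (fun g : G => MonoidAlgebra.of ℤ G g - 1))) ↔
        ∃ w : Fin (r 1) → MonoidAlgebra ℤ G, Matrix.vecMul w (d 0) = v)) ∧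
    (∀ i : ℕ, i + 1 < m → ∀ v : Fin (r (i + 1)) → MonoidAlgebra ℤ G,
      (Matrix.vecMul v (d i) = 0 ↔
        ∃ w : Fin (r (i + 1 + 1)) → MonoidAlgebra ℤ G, Matrix.vecMul w (d (i + 1)) = v))

/-- The least number of conjugates of relators or their inverses with product `w`. -/
noncomputable def area {k : ℕ} (S : Finset (FreeGroup (Fin k))) (w : FreeGroup (Fin k)) : ℕ :=
  sInf {N | ∃ l : List (FreeGroup (Fin k) × FreeGroup (Fin k)), l.length = N ∧
    (∀ p ∈ l, p.2 ∈ S ∨ p.2⁻¹ ∈ S) ∧ w = (l.map fun p => p.1 * p.2 * p.1⁻¹).prod}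

/-- The Dehn function of the presentation with `k` generators and relators `S`. -/
noncomputable def dehn {k : ℕ} (S : Finset (FreeGroup (Fin k))) (n : ℕ) : ℕ :=
  sSup {N | ∃ w ∈ Subgroup.normalClosure (S : Set (FreeGroup (Fin k))), w.norm ≤ n ∧ area S w = N}

/-- Every finite presentation of `G` has at least exponential Dehn function. -/
def ExpDehnFunction (G : Type) [Group G] : Prop :=
  ∀ (k : ℕ) (f : FreeGroup (Fin k) →* G) (S : Finset (FreeGroup (Fin k))), Function.Surjective f →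
    f.ker = Subgroup.normalClosure (S : Set (FreeGroup (Fin k))) →
      ∃ C : ℕ, ∀ j : ℕ, 2 ^ j ≤ C * dehn S (C * j + C)

/-- The powers of `z` are at least exponentially distorted, for every finite generating set. -/
def ExpDistorted {G : Type} [Group G] (z : G) : Prop :=
  ∀ (k : ℕ) (f : FreeGroup (Fin k) →* G), Function.Surjective f →
    ∃ C : ℕ, ∀ j : ℕ, ∃ (n : ℕ) (w : FreeGroup (Fin k)),
      2 ^ j ≤ n ∧ f w = z ^ n ∧ w.norm ≤ C * j + C

/-- the set whose least element is the area is nonempty on the normal closure -/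
theorem area_nonempty {k : ℕ} (S : Finset (FreeGroup (Fin k))) (w : FreeGroup (Fin k))
    (hw : w ∈ Subgroup.normalClosure (S : Set (FreeGroup (Fin k)))) :
    ∃ l : List (FreeGroup (Fin k) × FreeGroup (Fin k)),
      (∀ p ∈ l, p.2 ∈ S ∨ p.2⁻¹ ∈ S) ∧ w = (l.map fun p => p.1 * p.2 * p.1⁻¹).prod := by
  rw [Subgroup.normalClosure, ← Subgroup.mem_toSubmonoid, Subgroup.closure_toSubmonoid] at hw
  obtain ⟨l, h1, rfl⟩ := Submonoid.exists_list_of_mem_closure hw
  clear hw
  induction l with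
  | nil => exact ⟨[], by simp, rfl⟩
  | cons a l ih =>
    obtain ⟨l', h2, h3⟩ := ih fun y hy => h1 y (List.mem_cons_of_mem _ hy)
    have : ∃ p : FreeGroup (Fin k) × FreeGroup (Fin k), (p.2 ∈ S ∨ p.2⁻¹ ∈ S) ∧
        a = p.1 * p.2 * p.1⁻¹ := by
      rcases h1 a List.mem_cons_self with h | h
      · obtain ⟨r, hr, h⟩ := Group.mem_conjugatesOfSet_iff.1 h
        obtain ⟨u, hu⟩ := isConj_iff.1 h
        exact ⟨(u, r), Or.inl hr, hu.symm⟩
      · obtain ⟨r, hr, h⟩ := Group.mem_conjugatesOfSet_iff.1 h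
        obtain ⟨u, hu⟩ := isConj_iff.1 h
        exact ⟨(u, r⁻¹), Or.inr (by simpa using hr), by rw [← inv_inv a, ← hu]; group⟩
    obtain ⟨p, h4, h5⟩ := this
    exact ⟨p :: l', List.forall_mem_cons.2 ⟨h4, h2⟩, by
      rw [List.prod_cons, List.map_cons, List.prod_cons, h3, h5]⟩

/-- the set whose greatest element is the Dehn function is finite -/
theorem dehn_finite {k : ℕ} (S : Finset (FreeGroup (Fin k))) (n : ℕ) :
    {N | ∃ w ∈ Subgroup.normalClosure (S : Set (FreeGroup (Fin k))),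
      w.norm ≤ n ∧ area S w = N}.Finite := by
  have h : {w : FreeGroup (Fin k) | w.norm ≤ n}.Finite :=
    (List.finite_length_le (Fin k × Bool) n).preimage FreeGroup.toWord_injective.injOn
  exact (h.image (area S)).subset (by rintro _ ⟨w, -, h1, rfl⟩; exact ⟨w, h1, rfl⟩)

/-- For every `n` in `2, 3, ..., ∞` there is a finitely presented simple left-orderable group that
is of type `FP_m` exactly for `m ≤ n`, has at least exponential Dehn function and has an
exponentially distorted element of infinite order. -/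
theorem result (n : ℕ∞) (hn : 2 ≤ n) :
    ∃ (G : Type) (_ : Group G), IsSimpleGroup G ∧ LeftOrderable G ∧ Group.IsFinitelyPresented G ∧
      (∀ m : ℕ, 1 ≤ m → (TypeFP G m ↔ (m : ℕ∞) ≤ n)) ∧ ExpDehnFunction G ∧
      ∃ z : G, ¬ IsOfFinOrder z ∧ ExpDistorted z := by
  have key : ∀ (G : Type) [Group G], Pool.Agent.P.MP_267653_al.Exp G → ExpDehnFunction G :=
    fun G _ h k f S hf hS => by
      obtain ⟨C, hC⟩ := h k f S hf fun r hr =>
        MonoidHom.mem_ker.1 (hS ▸ Subgroup.subset_normalClosure hr)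
      refine ⟨C, fun j => ?_⟩
      obtain ⟨w, h1, h2, h3⟩ := hC j
      rw [hS] at h1
      obtain ⟨l0, h4⟩ := area_nonempty S w h1
      obtain ⟨l, h5, h6, h7⟩ : area S w ∈ _ := Nat.sInf_mem ⟨_, l0, rfl, h4⟩
      exact (h3 l h6 h7).trans (Nat.mul_le_mul_left _ (h5.le.trans
        (le_csSup (dehn_finite S _).bddAbove ⟨w, h1, h2, rfl⟩)))
  have fp : ∀ (G : Type) [Group G] (m : ℕ), TypeFP G (m + 1) ↔ Pool.Agent.Lib.Brown.FPG G m :=
    fun G _ m => (Pool.Agent.Lib.Brown.fpg_iff_matrices m).symm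
  induction n using ENat.recTopCoe with
  | top =>
    obtain ⟨G, _, φ, hφ, h1, h2, h3⟩ := Pool.Agent.P.MP_267653_al.main_inf
    refine ⟨G, inferInstance, h1, Pool.Agent.P.MP_267653_al.lo_of_hom φ hφ, (h3 0).1,
      fun m hm => ?_, key G h2.1, h2.2⟩
    obtain ⟨m, rfl⟩ : ∃ m', m = m' + 1 := ⟨m - 1, by omega⟩
    exact ⟨fun _ => le_top, fun _ => (fp G m).2 (h3 m).2⟩
  | coe n =>
    have hn' : 2 ≤ n := by exact_mod_cast hn
    obtain ⟨n, rfl⟩ : ∃ n', n = n' + 1 := ⟨n - 1, by omega⟩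
    obtain ⟨G, _, φ, hφ, h1, h2, h3, h4⟩ := Pool.Agent.P.MP_267653_al.main_fin (m := n) (by omega)
    refine ⟨G, inferInstance, h1, Pool.Agent.P.MP_267653_al.lo_of_hom φ hφ, h3.1,
      fun m hm => ?_, key G h2.1, h2.2⟩
    obtain ⟨m, rfl⟩ : ∃ m', m = m' + 1 := ⟨m - 1, by omega⟩
    rw [fp, Nat.cast_le]
    exact ⟨fun h => not_lt.1 fun h' => h4 (h.mono (by omega)), fun h => h3.2.mono (by omega)⟩

/-- the question as posed -/
theorem q1 (n : ℕ) (hn : 2 ≤ n) : ∃ (G : Type) (_ : Group G), IsSimpleGroup G ∧ LeftOrderable G ∧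
    Group.IsFinitelyPresented G ∧ TypeFP G n ∧ ¬ TypeFP G (n + 1) := by
  obtain ⟨G, _, h1, h2, h3, h4, -⟩ := result n (by exact_mod_cast hn)
  exact ⟨G, inferInstance, h1, h2, h3, (h4 n (by omega)).2 le_rfl,
    fun h => by simpa using Nat.cast_le.1 ((h4 _ (by omega)).1 h)⟩

/-- control: free groups do not have at least exponential Dehn function -/
theorem not_expDehn_free (k : ℕ) : ¬ ExpDehnFunction (FreeGroup (Fin k)) := fun h => by
  obtain ⟨C, hC⟩ := h k (MonoidHom.id _) ∅ Function.surjective_id (by simp)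
  have h1 : dehn (∅ : Finset (FreeGroup (Fin k))) (C * 0 + C) = 0 :=
    Nat.le_zero.1 (csSup_le' (by
      rintro _ ⟨w, h1, -, rfl⟩
      obtain rfl : w = 1 := by simpa using h1
      exact Nat.sInf_le ⟨[], rfl, by simp, rfl⟩))
  have h2 := hC 0
  rw [h1] at h2
  simp at h2

/-- control: a free generator is not exponentially distorted -/
theorem not_expDistorted_free (k : ℕ) (i : Fin k) : ¬ ExpDistorted (FreeGroup.of i) := fun h => by
  obtain ⟨C, hC⟩ := h k (MonoidHom.id _) Function.surjective_id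
  obtain ⟨n, w, h1, rfl, h2⟩ := hC (C + 1 + (C + 1))
  rw [FreeGroup.norm_of_pow] at h2
  have h3 : C < 2 ^ C := Nat.lt_two_pow_self
  rw [pow_add, pow_succ] at h1
  nlinarith

end Pool.Agent.Results.MP_267653_al.ExpDehn
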